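import Pool.Agent.Helper53.FM.Defs
import Pool.Agent.Helper53.WR.Tower
import Pool.Agent.Helper64.FB.FiStep
import Pool.Agent.Helper53.FM.Rl.A4C0

/-!
# Project FM: one stage (C1)
-/

set_option autoImplicit false

namespace Pool.Agent.Helper53.FM.Pf

open Finset
open Pool.Agent.Helper53.WR
open Pool.Agent.Helper48.FB (win crossF Cs WinLe Fs Dk LR zR dens)
open Pool.Agent.Helper53.FM
open Pool.Agent.Helper30.WR (card_class_le_one)
open Pool.Agent.Helper64.FB
open Pool.Agent.Helper8.FMR (cross_le)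

/-- FM-C1 (one stage). -/
theorem mi_step {a u e κ w c : ℕ → ℕ} (h : MTow a u e κ w c) (f g : ℕ → ℕ) (k : ℕ) (q : ℕ → ℕ)
    (hq : ∀ i, (q i).Prime ∧ 2 ^ (a i) < q i ∧ q i ≤ 2 ^ (a i + 1)) (B : ℕ → Finset ℕ)
    (O A R : Finset ℕ) (A' : ℕ → Finset ℕ)
    (hO : MI a u e κ w c q k O) (hA : MW a u e κ w c f g q B k O A A')
    (hR : MR a u e κ q k O A R) :
    MI a u e κ w c q (k + 1) (O ∪ A ∪ R) := by
  have hcc := h.cc k
  have hc2 := h.c2 k
  have hN := h.tow
  have hstep := hN.step k
  have he := hN.e300 k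
  have heu := hN.eu k
  have hua := hN.ua k
  have huu := hN.uu k
  have huu' := hN.uu' k
  have hkk := hN.kk' k
  have hu42 := h.u42 k
  have h20 := hN.h20 k
  have hκ1 : 1 ≤ κ k := by
    have h1 := hN.hκ k
    by_contra h2
    have h3 : κ k = 0 := by omega
    rw [h3, mul_zero] at h1
    omega
  -- positions
  have hRlt : ∀ x ∈ R, x < 2 ^ (4 * a k + 8 * u k + 64 * e k + 12) := by
    intro x hx
    have h1 := (hR.rng x hx).2
    have h2 : LR a u e k = 4 * a k + 8 * u k + 64 * e k + 12 := by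
      unfold LR thT; ring
    rw [h2] at h1
    exact h1
  have hOlt : ∀ x ∈ O, x < 2 ^ (4 * a k + 8 * u k + 64 * e k + 12) := fun x hx =>
    lt_of_lt_of_le (hO.bd x hx) (Nat.pow_le_pow_right (by norm_num) (by omega))
  have hz' : zR a u (k + 1) = 4 * a k + 4 * u k + 8 * u (k + 1) - 24 := by
    unfold zR
    omega
  have hbd : ∀ o ∈ O ∪ A ∪ R, o < 2 ^ (4 * a (k + 1) + 8 * u (k + 1)) := by
    intro o ho
    rcases mem_union.mp ho with h1 | h1
    · rcases mem_union.mp h1 with h2 | h2
      · exact lt_of_lt_of_le (hO.bd o h2) (Nat.pow_le_pow_right (by norm_num) (by omega))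
      · exact (hA.rng o h2).2
    · exact lt_of_lt_of_le (hRlt o h1) (Nat.pow_le_pow_right (by norm_num) (by omega))
  have hexp : 4 * a (k + 1) + 8 * u (k + 1) ≤ 6 * a k := by omega
  have hbig : ∀ i, ¬ a i ≤ 3 * a k → ∀ o ∈ O ∪ A ∪ R, o < (q i) ^ 2 := by
    intro i hi o ho
    have h1 := hbd o ho
    have h2 : (2 : ℕ) ^ (4 * a (k + 1) + 8 * u (k + 1)) ≤ 2 ^ (2 * a i) :=
      Nat.pow_le_pow_right (by norm_num) (by omega)
    have h3 : (2 : ℕ) ^ (2 * a i) ≤ (q i) ^ 2 := by
      rw [mul_comm, pow_mul]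
      exact Nat.pow_le_pow_left (hq i).2.1.le 2
    omega
  have hle24 : ∀ i, (q i) ^ 2 ≤ (q i) ^ 4 := fun i =>
    Nat.pow_le_pow_right (hq i).1.pos (by norm_num)
  -- numerics of the representations
  have hFs : 4096 ^ 2 * 2592 * Fs u k ≤ 2 ^ 62 * a k := by
    have h1 : laT u k + 1 ≤ 14 * u k := by
      unfold laT
      omega
    unfold Fs Cs
    have h2 : 4096 ^ 2 * 2592 * (2 ^ 64 * (laT u k + 1)) ≤
        4096 ^ 2 * 2592 * (2 ^ 64 * (14 * u k)) :=
      Nat.mul_le_mul_left _ (Nat.mul_le_mul_left _ h1)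
    refine h2.trans ?_
    have h3 : 4096 ^ 2 * 2592 * (2 ^ 64 * (14 * u k)) ≤ 2 ^ 62 * (2 ^ 42 * u k) := by
      have : 4096 ^ 2 * 2592 * (2 ^ 64 * (14 * u k)) = (4096 ^ 2 * 2592 * 2 ^ 64 * 14) * u k := by
        ring
      rw [this, ← mul_assoc]
      exact Nat.mul_le_mul_right _ (by norm_num)
    exact h3.trans (Nat.mul_le_mul_left _ hu42)
  have hLR : 201 * LR a u e k ≤ 2 ^ 10 * a k := by
    unfold LR thT
    omega
  refine ⟨hbd, ⟨mem_union_left _ (mem_union_left _ hO.zo.1),
    mem_union_left _ (mem_union_left _ hO.zo.2)⟩, ?_, ?_, ?_, ?_, ?_, ?_⟩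
  · -- c2
    intro i hi r
    have hpos : 1 ≤ 2 ^ (4 * u i + 4 * e i) := Nat.one_le_two_pow
    by_cases hc : a i ≤ 3 * a k
    · rw [filter_union, filter_union]
      have h1 := hO.c2 i (by omega) r
      have h2 := hA.res2 i (by omega) hc r
      have h3 := hR.res2 i (by omega) hc r
      have h4 := card_union_le (O.filter (fun o => o % (q i) ^ 2 = r) ∪
        A.filter (fun o => o % (q i) ^ 2 = r)) (R.filter (fun o => o % (q i) ^ 2 = r))
      have h5 := card_union_le (O.filter (fun o => o % (q i) ^ 2 = r))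
        (A.filter (fun o => o % (q i) ^ 2 = r))
      have e1 : (k + 1 + 1) * (8192 * 2 ^ (4 * u i + 4 * e i))
        = (k + 1) * (8192 * 2 ^ (4 * u i + 4 * e i)) + 8192 * 2 ^ (4 * u i + 4 * e i) := by ring
      rw [e1]
      omega
    · have h1 := card_class_le_one (O ∪ A ∪ R) ((q i) ^ 2) (hbig i hc) r
      refine h1.trans ?_
      exact Nat.mul_pos (by omega) (Nat.mul_pos (by norm_num) hpos)
  · -- c4
    intro i hi r
    unfold Dk
    by_cases hc : a i ≤ 3 * a k
    · rw [filter_union, filter_union]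
      have h1 := hO.c4 i (by omega) r
      have h2 := hA.res4 i (by omega) hc r
      have h3 := hR.res4 i (by omega) hc r
      have h4 := card_union_le (O.filter (fun o => o % (q i) ^ 4 = r) ∪
        A.filter (fun o => o % (q i) ^ 4 = r)) (R.filter (fun o => o % (q i) ^ 4 = r))
      have h5 := card_union_le (O.filter (fun o => o % (q i) ^ 4 = r))
        (A.filter (fun o => o % (q i) ^ 4 = r))
      unfold Dk at h1
      have e0 : (k + 1) * (8192 * (8 * κ k)) ≤ (k + 1) * (8192 * (8 * κ (k + 1))) :=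
        Nat.mul_le_mul_left _ (by omega)
      have e1 : (k + 1 + 1) * (8192 * (8 * κ (k + 1)))
        = (k + 1) * (8192 * (8 * κ (k + 1))) + 8192 * (8 * κ (k + 1)) := by ring
      rw [e1]
      omega
    · have h1 := card_class_le_one (O ∪ A ∪ R) ((q i) ^ 4)
        (fun o ho => lt_of_lt_of_le (hbig i hc o ho) (hle24 i)) r
      refine h1.trans ?_
      exact Nat.mul_pos (by omega) (Nat.mul_pos (by norm_num) (by omega))
  · -- rep
    intro n
    have h0 := repF_union3 O A R n
    by_cases hn : n < 2 ^ zR a u k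
    · have hA0 : ∀ x ∈ A, n < x := by
        intro x hx
        have h1 := (hA.rng x hx).1
        have h2 : (2 : ℕ) ^ zR a u k ≤ 2 ^ (4 * a k + thT u e k) :=
          Nat.pow_le_pow_right (by norm_num) (by unfold zR thT; omega)
        omega
      have hR0 : ∀ x ∈ R, n < x := by
        intro x hx
        have h1 := (hR.rng x hx).1
        omega
      have h1 : repF A n = 0 := cross_zero_of_gt hA0
      have h2 : repF R n = 0 := cross_zero_of_gt hR0
      have h3 : (crossF A O n).card = 0 := cross_zero_of_gt hA0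
      have h4 : (crossF R O n).card = 0 := cross_zero_of_gt hR0
      have h5 : (crossF R A n).card = 0 := cross_zero_of_gt hR0
      have h6 := hO.rep n
      have h7 : 4 * Cs * a k ≤ 4 * Cs * a (k + 1) := Nat.mul_le_mul_left _ (by omega)
      omega
    · have h1 := hO.repl n (by omega)
      have h2 := hA.self n
      have h3 := hR.self n
      have h4 := hA.cross n
      have h4c := cross_le h k (dW a u e k n)
      have h5 := hR.crossO n
      have h6 := hR.crossW n
      unfold Cs at h1 ⊢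
      omega
  · -- repl
    intro n hn
    have h0 := repF_union3 O A R n
    rw [hz'] at hn
    have hsum : (2 : ℕ) ^ (4 * a k + 8 * u k + 64 * e k + 12) +
        2 ^ (4 * a k + 8 * u k + 64 * e k + 12) ≤ n := by
      rw [← two_mul, ← pow_succ']
      exact le_trans (Nat.pow_le_pow_right (by norm_num) (by omega)) hn
    have h1 : repF O n = 0 := cross_zero_of_lt (fun x hx y hy => by
      have := hOlt x hx
      have := hOlt y hy
      omega)
    have h2 : repF R n = 0 := cross_zero_of_lt (fun x hx y hy => by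
      have := hRlt x hx
      have := hRlt y hy
      omega)
    have h3 : (crossF R O n).card = 0 := cross_zero_of_lt (fun x hx y hy => by
      have := hRlt x hx
      have := hOlt y hy
      omega)
    have h4 := hA.self n
    have h5 := hA.cross n
    have h5c := cross_le h k (dW a u e k n)
    have h6 := hR.crossW n
    unfold Cs
    omega
  · -- cov
    intro n hn2 hn
    have hup : ∀ x, n ≤ 2 * c k * x → n ≤ 2 * c (k + 1) * x := fun x hx =>
      hx.trans (Nat.mul_le_mul_right _ (Nat.mul_le_mul_left _ hcc))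
    have hup4 : ∀ x, n ≤ 4 * x → n ≤ 2 * c (k + 1) * x := fun x hx =>
      hx.trans (Nat.mul_le_mul_right _ (by omega))
    by_cases h1 : n < 2 ^ (4 * a k + 8 * u k - 8)
    · obtain ⟨x, hx, y, hy, hxy, hx2, hy2⟩ := hO.cov n hn2 h1
      exact ⟨x, mem_union_left _ (mem_union_left _ hx), y,
        mem_union_left _ (mem_union_left _ hy), hxy, hup _ hx2, hup _ hy2⟩
    · by_cases h2 : n < 2 ^ LR a u e k
      · have h3 : (2 : ℕ) ^ (zR a u k + 2) ≤ 2 ^ (4 * a k + 8 * u k - 8) :=
          Nat.pow_le_pow_right (by norm_num) (by unfold zR; omega)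
        obtain ⟨x, hx, y, hy, hxy, hx2, hy2⟩ := hR.cov n (by omega) h2
        exact ⟨x, mem_union_right _ hx, y, mem_union_right _ hy, hxy, hup4 _ hx2, hup4 _ hy2⟩
      · have h3 : (2 : ℕ) ^ (4 * a k + thT u e k + 8) ≤ 2 ^ LR a u e k :=
          Nat.pow_le_pow_right (by norm_num) (by unfold LR; omega)
        have h4 : (2 : ℕ) ^ (4 * a (k + 1) + 8 * u (k + 1) - 8) ≤ 2 ^ (4 * a k + laT u k) :=
          Nat.pow_le_pow_right (by norm_num) (by unfold laT; omega)
        obtain ⟨x, hx, y, hy, hxy, hx2, hy2⟩ := hA.cov n (by omega) (by omega)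
        exact ⟨x, mem_union_left _ (mem_union_right _ hx), y,
          mem_union_left _ (mem_union_right _ hy), hxy, hup _ hx2, hup _ hy2⟩
  · -- wn
    refine winLe_mono (winLe_union (winLe_union hO.wn hA.wn) hR.wn) ?_
    have hww := h.ww k
    have hlog : Nat.log 2 (a k) ≤ Nat.log 2 (a (k + 1)) := Nat.log_mono_right (by omega)
    have h1 : (2 : ℕ) ^ (wA a w k + 1) ≤ 2 ^ (wA a w (k + 1) + 1) :=
      Nat.pow_le_pow_right (by norm_num) (by unfold wA; omega)
    have h2 : (k + 1) * 2 ^ (wA a w k + 1) ≤ (k + 1) * 2 ^ (wA a w (k + 1) + 1) :=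
      Nat.mul_le_mul_left _ h1
    have ha0 : a k < 2 ^ (Nat.log 2 (a k) + 1) := Nat.lt_pow_succ_log_self (by norm_num) _
    have h5 : 16 * LR a u e k ≤ 80 * a k := by
      unfold LR thT
      omega
    have h6 : 2 ^ 39 * 2 ^ (Nat.log 2 (a k) + 1) ≤ 2 ^ wA a w k := by
      rw [← pow_add]
      exact Nat.pow_le_pow_right (by norm_num) (by unfold wA; omega)
    have h7 : (2 : ℕ) ^ (wA a w k + 1) = 2 * 2 ^ wA a w k := by
      rw [pow_succ]; ring
    have e1 : (k + 1 + 1) * 2 ^ (wA a w (k + 1) + 1)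
        = (k + 1) * 2 ^ (wA a w (k + 1) + 1) + 2 ^ (wA a w (k + 1) + 1) := by ring
    rw [e1]
    omega

end Pool.Agent.Helper53.FM.Pf
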